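import Mathlib

/-! Three-phase Golay sequence triads. -/

namespace Pool.Agent.MP_fe418c_co

/-- The primitive cube root of unity `exp (2 π i / 3)`. -/
noncomputable def om : ℂ := Complex.exp (2 * Real.pi * Complex.I / 3)

/-- The first `s` entries of `a` are cube roots of unity. -/
def Phase (s : ℕ) (a : ℕ → ℂ) : Prop := ∀ j < s, a j = 1 ∨ a j = om ∨ a j = om ^ 2

/-- The aperiodic autocorrelation at shift `u` of the sequence `a 0, …, a (s - 1)`. -/
noncomputable def ac (s : ℕ) (a : ℕ → ℂ) (u : ℕ) : ℂ :=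
  ∑ j ∈ Finset.range (s - u), a j * (starRingEnd ℂ) (a (j + u))

/-- There is a three-phase Golay sequence triad of length `s`. -/
def HasTriad (s : ℕ) : Prop :=
  ∃ a b c : ℕ → ℂ, Phase s a ∧ Phase s b ∧ Phase s c ∧
    ∀ u, 0 < u → u < s → ac s a u + ac s b u + ac s c u = 0

end Pool.Agent.MP_fe418c_co
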