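import Mathlib
import Pool.Agent.MP_fe418c_co.Defs

/-! Multiplication of the length of a triad by 3 and by 21. -/

open Finset LaurentPolynomial

namespace Pool.Agent.MP_fe418c_co

noncomputable section

lemma om_cube : om ^ 3 = 1 := by
  rw [om, ← Complex.exp_nat_mul, show ((3 : ℕ) : ℂ) * (2 * Real.pi * Complex.I / 3) =
    2 * Real.pi * Complex.I by push_cast; ring, Complex.exp_two_pi_mul_I]

lemma om_ne : om ≠ 1 := by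
  intro h
  obtain ⟨n, hn⟩ := Complex.exp_eq_one_iff.1 h
  have h0 : (2 * Real.pi * Complex.I : ℂ) ≠ 0 := Complex.two_pi_I_ne_zero
  have h1 : (1 : ℂ) = 3 * n := mul_right_cancel₀ h0 (by linear_combination 3 * hn)
  have h2 : (1 : ℤ) = 3 * n := by exact_mod_cast h1
  omega

lemma om_eq : om ^ 2 + om + 1 = 0 :=
  mul_left_cancel₀ (sub_ne_zero.2 om_ne) (by linear_combination om_cube)

lemma om_conj : (starRingEnd ℂ) om = om ^ 2 := by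
  have h : (starRingEnd ℂ) om * om = 1 := by
    rw [om, ← Complex.exp_conj, ← Complex.exp_add]
    simp only [map_div₀, map_mul, Complex.conj_ofReal, Complex.conj_I, map_ofNat]
    rw [show 2 * (Real.pi : ℂ) * -Complex.I / 3 + 2 * Real.pi * Complex.I / 3 = 0 by ring,
      Complex.exp_zero]
  linear_combination om ^ 2 * h - (starRingEnd ℂ) om * om_cube

lemma phase_mul {x : ℂ} (h : x = 1 ∨ x = om ∨ x = om ^ 2) (e : ℕ) :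
    om ^ e * x = 1 ∨ om ^ e * x = om ∨ om ^ e * x = om ^ 2 := by
  induction e with
  | zero => simpa using h
  | succ e ih =>
    rw [pow_succ', mul_assoc]
    rcases ih with h | h | h <;> rw [h]
    · exact Or.inr (Or.inl (mul_one _))
    · exact Or.inr (Or.inr (sq _).symm)
    · exact Or.inl (by linear_combination om_cube)

/-- The generating function. -/
def gen (ε : ℤ) (s : ℕ) (a : ℕ → ℂ) : ℂ[T;T⁻¹] := ∑ j ∈ range s, C (a j) * T (ε * j)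

/-- The generating function of the autocorrelations. -/
def nrm (s : ℕ) (a : ℕ → ℂ) : ℂ[T;T⁻¹] := gen 1 s a * gen (-1) s fun j => (starRingEnd ℂ) (a j)

lemma nrm_coeff (s : ℕ) (a : ℕ → ℂ) (n : ℤ) : (nrm s a).coeff n =
    ∑ j ∈ range s, ∑ k ∈ range s,
      if (j : ℤ) - k = n then a j * (starRingEnd ℂ) (a k) else 0 := by
  rw [nrm, gen, gen, sum_mul_sum, AddMonoidAlgebra.coeff_sum, Finset.sum_apply']
  refine sum_congr rfl fun j _ => ?_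
  rw [AddMonoidAlgebra.coeff_sum, Finset.sum_apply']
  refine sum_congr rfl fun k _ => ?_
  rw [mul_mul_mul_comm, ← map_mul, ← T_add, ← single_eq_C_mul_T,
    AddMonoidAlgebra.coeff_single, Finsupp.single_apply, show (1 * j + -1 * k : ℤ) = j - k by ring]

lemma nrm_neg (s : ℕ) (a : ℕ → ℂ) (u : ℕ) : (nrm s a).coeff (-u) = ac s a u := by
  rw [nrm_coeff, ac, ← sum_subset (range_subset_range.2 (Nat.sub_le s u))]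
  · refine sum_congr rfl fun j hj => ?_
    rw [sum_eq_single (j + u), if_pos (by push_cast; ring)]
    · exact fun k _ hk => if_neg (by omega)
    · exact fun h => absurd (mem_range.2 (by have := mem_range.1 hj; omega)) h
  · refine fun j _ hj => sum_eq_zero fun k hk => if_neg ?_
    rw [mem_range] at hj hk
    omega

lemma nrm_pos (s : ℕ) (a : ℕ → ℂ) (u : ℕ) :
    (nrm s a).coeff u = (starRingEnd ℂ) (ac s a u) := by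
  rw [← nrm_neg, nrm_coeff, nrm_coeff, map_sum, sum_comm]
  refine sum_congr rfl fun j _ => ?_
  rw [map_sum]
  refine sum_congr rfl fun k _ => ?_
  by_cases h : (k : ℤ) - j = u
  · rw [if_pos h, if_pos (by omega), map_mul, Complex.conj_conj, mul_comm]
  · rw [if_neg h, if_neg (by omega), map_zero]

lemma comp_iff (s : ℕ) (a b c : ℕ → ℂ) :
    (∀ u, 0 < u → u < s → ac s a u + ac s b u + ac s c u = 0) ↔
      ∃ x : ℂ, nrm s a + nrm s b + nrm s c = C x := by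
  constructor
  · intro h
    have h' : ∀ u, 0 < u → ac s a u + ac s b u + ac s c u = 0 := fun u hu => by
      by_cases hs : u < s
      · exact h u hu hs
      · simp [ac, Nat.sub_eq_zero_of_le (not_lt.1 hs)]
    refine ⟨(nrm s a + nrm s b + nrm s c).coeff 0, ?_⟩
    ext n
    rw [C_apply]
    split_ifs with hn
    · rw [hn]
    · simp only [AddMonoidAlgebra.coeff_add, Finsupp.add_apply]
      obtain ⟨u, rfl | rfl⟩ := n.eq_nat_or_neg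
      · rw [nrm_pos, nrm_pos, nrm_pos, ← map_add, ← map_add, h' u (by omega), map_zero]
      · rw [nrm_neg, nrm_neg, nrm_neg, h' u (by omega)]
  · rintro ⟨x, hx⟩ u hu _
    have := congrArg (fun p : ℂ[T;T⁻¹] => p.coeff (-u)) hx
    simp only [AddMonoidAlgebra.coeff_add, Finsupp.add_apply, nrm_neg] at this
    rw [this, C_apply, if_neg (by omega)]

lemma gen_block (ε : ℤ) {s : ℕ} (hs : 0 < s) (m : ℕ) (φ : ℕ → ℂ) (v : ℕ → ℕ → ℂ) :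
    gen ε (m * s) (fun n => φ (n / s) * v (n / s) (n % s)) =
      ∑ q ∈ range m, C (φ q) * T (ε * s) ^ q * gen ε s (v q) := by
  induction m with
  | zero => simp [gen]
  | succ m ih =>
    rw [sum_range_succ, ← ih, add_one_mul, gen, gen, gen, sum_range_add, mul_sum]
    congr 1
    refine sum_congr rfl fun r hr => ?_
    have h1 : (m * s + r) / s = m := by
      rw [add_comm, Nat.add_mul_div_right _ _ hs, Nat.div_eq_of_lt (mem_range.1 hr), zero_add]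
    have h2 : (m * s + r) % s = r := by
      rw [add_comm, Nat.add_mul_mod_self_right, Nat.mod_eq_of_lt (mem_range.1 hr)]
    rw [h1, h2, map_mul, T_pow, mul_mul_mul_comm, ← T_add]
    congr 2
    push_cast
    ring

/-- The identity that makes three exponent lists a multiplier of length `m`. -/
def Mult (m : ℕ) (E : Fin 3 → ℕ → ℕ) : Prop :=
  ∀ (R : Type) [CommRing R] (w t u : R) (x y : ℕ → R), w ^ 2 + w + 1 = 0 → t * u = 1 →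
    ∑ i, (∑ q ∈ range m, w ^ E i q * t ^ q * x (q % 3)) *
      (∑ q ∈ range m, (w ^ 2) ^ E i q * u ^ q * y (q % 3)) =
      m * (x 0 * y 0 + x 1 * y 1 + x 2 * y 2)

lemma Mult.triad {m : ℕ} {E : Fin 3 → ℕ → ℕ} (h : Mult m E) {s : ℕ} (hs : HasTriad s) :
    HasTriad (m * s) := by
  rcases Nat.eq_zero_or_pos s with rfl | h0
  · rwa [mul_zero]
  obtain ⟨a, b, c, ha, hb, hc, hz⟩ := hs
  obtain ⟨x, hx⟩ := (comp_iff s a b c).1 hz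
  obtain ⟨v, v0, v1, v2⟩ : ∃ v : ℕ → ℕ → ℂ, v 0 = a ∧ v 1 = b ∧ v 2 = c :=
    ⟨fun j => if j = 0 then a else if j = 1 then b else c, rfl, rfl, rfl⟩
  have hv : ∀ q, Phase s (v (q % 3)) := fun q => by
    have : q % 3 = 0 ∨ q % 3 = 1 ∨ q % 3 = 2 := by omega
    rcases this with e | e | e <;> rw [e]
    exacts [v0 ▸ ha, v1 ▸ hb, v2 ▸ hc]
  have hp : ∀ i, Phase (m * s) fun n => om ^ E i (n / s) * v (n / s % 3) (n % s) :=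
    fun i n _ => phase_mul (hv _ _ (Nat.mod_lt _ h0)) _
  have hn : ∀ i, nrm (m * s) (fun n => om ^ E i (n / s) * v (n / s % 3) (n % s)) =
      (∑ q ∈ range m, C om ^ E i q * T (1 * s) ^ q * gen 1 s (v (q % 3))) *
      ∑ q ∈ range m, (C om ^ 2) ^ E i q * T (-1 * s) ^ q *
        gen (-1) s fun j => (starRingEnd ℂ) (v (q % 3) j) := fun i => by
    have h1 := gen_block 1 h0 m (fun q => om ^ E i q) fun q => v (q % 3)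
    have h2 := gen_block (-1) h0 m (fun q => (om ^ 2) ^ E i q)
      fun q j => (starRingEnd ℂ) (v (q % 3) j)
    simp only [map_pow] at h1 h2
    rw [nrm, h1, ← h2]
    simp only [map_mul, map_pow, om_conj]
  refine ⟨_, _, _, hp 0, hp 1, hp 2, (comp_iff _ _ _ _).2 ⟨m * x, ?_⟩⟩
  have key := h ℂ[T;T⁻¹] (C om) (T (1 * s)) (T (-1 * s)) (fun j => gen 1 s (v j))
    (fun j => gen (-1) s fun k => (starRingEnd ℂ) (v j k))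
    (by rw [← map_pow, ← map_add, ← map_one C, ← map_add, om_eq, map_zero])
    (by rw [← T_add, show (1 * s + -1 * s : ℤ) = 0 by ring, T_zero])
  rw [Fin.sum_univ_three] at key
  rw [hn, hn, hn, key, v0, v1, v2, map_mul, map_natCast, ← hx]
  rfl

lemma mult3 : Mult 3 fun i q => i * q := by
  intro R _ w t u x y hw h
  simp only [Fin.sum_univ_three, sum_range_succ, sum_range_zero, Fin.val_zero, Fin.val_one,
    Fin.val_two, Nat.reduceMul, Nat.reduceMod, Nat.cast_ofNat]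
  grind

/-- The exponents of a complete complementary code of length seven, interleaved. -/
def E21 (i : Fin 3) (q : ℕ) : ℕ :=
  (![[0, 0, 0, 0, 0, 0, 1, 0, 2, 0, 1, 1, 1, 2, 0, 0, 2, 1, 0, 1, 2],
    [0, 0, 0, 2, 2, 2, 1, 0, 2, 2, 1, 2, 0, 1, 2, 1, 0, 2, 1, 2, 0],
    [0, 0, 0, 1, 1, 1, 1, 0, 2, 0, 0, 2, 2, 0, 1, 2, 1, 0, 2, 0, 1]] i).getD q 0

section Code

variable {R : Type} [CommRing R]

/-- The polynomial with coefficients `w ^ e`. -/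
def pw (w t : R) (e0 e1 e2 e3 e4 e5 e6 : ℕ) : R :=
  w ^ e0 + w ^ e1 * t + w ^ e2 * t ^ 2 + w ^ e3 * t ^ 3 + w ^ e4 * t ^ 4 + w ^ e5 * t ^ 5 +
    w ^ e6 * t ^ 6

lemma pw_rev {t u : R} (h : t * u = 1) (w : R) (e0 e1 e2 e3 e4 e5 e6 : ℕ) :
    pw w u e0 e1 e2 e3 e4 e5 e6 = u ^ 6 * pw w t e6 e5 e4 e3 e2 e1 e0 := by
  unfold pw
  generalize w ^ e0 = a0
  generalize w ^ e1 = a1
  generalize w ^ e2 = a2
  generalize w ^ e3 = a3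
  generalize w ^ e4 = a4
  generalize w ^ e5 = a5
  generalize w ^ e6 = a6
  grind

lemma g00 {w t u : R} (hw : w ^ 2 + w + 1 = 0) (h : t * u = 1) :
    pw w t 0 0 1 0 1 0 0 * pw (w ^ 2) u 0 0 1 0 1 0 0 +
      pw w t 0 2 1 2 0 1 1 * pw (w ^ 2) u 0 2 1 2 0 1 1 +
      pw w t 0 1 1 0 2 2 2 * pw (w ^ 2) u 0 1 1 0 2 2 2 = 21 := by
  simp only [pw_rev h (w ^ 2)]
  unfold pw
  linear_combination u ^ 6 * (((1) * w ^ 0 + (-1) * w ^ 1 + (1) * w ^ 2) * t ^ 0 +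
      ((2) * w ^ 0 + (-2) * w ^ 1 + (1) * w ^ 2 + (1) * w ^ 3) * t ^ 1 +
      ((2) * w ^ 0 + (-1) * w ^ 1 + (2) * w ^ 3) * t ^ 2 +
      ((3) * w ^ 0 + (-2) * w ^ 1 + (1) * w ^ 2 + (2) * w ^ 3) * t ^ 3 +
      ((2) * w ^ 0 + (1) * w ^ 1 + (1) * w ^ 2 + (-1) * w ^ 3 + (2) * w ^ 4) * t ^ 4 +
      ((2) * w ^ 0 + (1) * w ^ 1 + (2) * w ^ 2 + (-1) * w ^ 3 + (2) * w ^ 4) * t ^ 5 +
      ((-12) * w ^ 0 + (12) * w ^ 1 + (-5) * w ^ 3 + (5) * w ^ 4) * t ^ 6 +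
      ((2) * w ^ 0 + (2) * w ^ 1 + (1) * w ^ 2 + (-1) * w ^ 3 + (2) * w ^ 4) * t ^ 7 +
      ((2) * w ^ 0 + (2) * w ^ 1 + (-1) * w ^ 3 + (2) * w ^ 4) * t ^ 8 +
      ((3) * w ^ 0 + (-2) * w ^ 1 + (2) * w ^ 2 + (1) * w ^ 3) * t ^ 9 +
      ((2) * w ^ 0 + (-1) * w ^ 1 + (1) * w ^ 2 + (1) * w ^ 3) * t ^ 10 +
      ((2) * w ^ 0 + (-1) * w ^ 1 + (1) * w ^ 3) * t ^ 11 +
      ((1) * w ^ 0) * t ^ 12) * hw + 21 * (1 + t * u + (t * u) ^ 2 + (t * u) ^ 3 + (t * u) ^ 4 + (t * u) ^ 5) * h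

lemma g01 {w t u : R} (hw : w ^ 2 + w + 1 = 0) (h : t * u = 1) :
    pw w t 0 0 1 0 1 0 0 * pw (w ^ 2) u 0 0 0 1 2 2 1 +
      pw w t 0 2 1 2 0 1 1 * pw (w ^ 2) u 0 2 0 1 1 0 2 +
      pw w t 0 1 1 0 2 2 2 * pw (w ^ 2) u 0 1 0 0 0 1 0 = 0 := by
  simp only [pw_rev h (w ^ 2)]
  unfold pw
  linear_combination u ^ 6 * (((1) * w ^ 0 + (-1) * w ^ 1 + (1) * w ^ 2) * t ^ 0 +
      ((1) * w ^ 0 + (1) * w ^ 2 + (-1) * w ^ 3 + (1) * w ^ 4) * t ^ 1 +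
      ((1) * w ^ 0 + (1) * w ^ 2 + (1) * w ^ 3) * t ^ 2 +
      ((2) * w ^ 0 + (1) * w ^ 2 + (1) * w ^ 4) * t ^ 3 +
      ((3) * w ^ 0 + (-1) * w ^ 1 + (2) * w ^ 2 + (1) * w ^ 3) * t ^ 4 +
      ((4) * w ^ 0 + (-2) * w ^ 1 + (2) * w ^ 2 + (2) * w ^ 3) * t ^ 5 +
      ((5) * w ^ 0 + (-1) * w ^ 1 + (1) * w ^ 2 + (1) * w ^ 3 + (1) * w ^ 4) * t ^ 6 +
      ((3) * w ^ 0 + (2) * w ^ 2 + (1) * w ^ 3) * t ^ 7 +
      ((2) * w ^ 0 + (2) * w ^ 1 + (1) * w ^ 2 + (-1) * w ^ 3 + (1) * w ^ 4) * t ^ 8 +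
      ((3) * w ^ 0 + (-1) * w ^ 1 + (2) * w ^ 2) * t ^ 9 +
      ((3) * w ^ 0 + (-1) * w ^ 1 + (1) * w ^ 3) * t ^ 10 +
      ((2) * w ^ 0 + (-1) * w ^ 1 + (1) * w ^ 3) * t ^ 11 +
      ((1) * w ^ 0) * t ^ 12) * hw

lemma g02 {w t u : R} (hw : w ^ 2 + w + 1 = 0) (h : t * u = 1) :
    pw w t 0 0 1 0 1 0 0 * pw (w ^ 2) u 0 0 2 1 0 1 2 +
      pw w t 0 2 1 2 0 1 1 * pw (w ^ 2) u 0 2 2 2 2 2 0 +
      pw w t 0 1 1 0 2 2 2 * pw (w ^ 2) u 0 1 2 2 1 0 1 = 0 := by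
  simp only [pw_rev h (w ^ 2)]
  unfold pw
  linear_combination u ^ 6 * (((1) * w ^ 0 + (-1) * w ^ 1 + (1) * w ^ 2) * t ^ 0 +
      ((1) * w ^ 0 + (-1) * w ^ 1 + (2) * w ^ 2) * t ^ 1 +
      ((1) * w ^ 0 + (1) * w ^ 1 + (1) * w ^ 4) * t ^ 2 +
      ((1) * w ^ 0 + (2) * w ^ 2 + (1) * w ^ 4) * t ^ 3 +
      ((2) * w ^ 0 + (-1) * w ^ 1 + (1) * w ^ 2 + (1) * w ^ 3 + (2) * w ^ 4) * t ^ 4 +
      ((2) * w ^ 0 + (-1) * w ^ 1 + (2) * w ^ 2 + (1) * w ^ 3 + (2) * w ^ 4) * t ^ 5 +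
      ((4) * w ^ 0 + (-2) * w ^ 1 + (1) * w ^ 2 + (2) * w ^ 3 + (2) * w ^ 4) * t ^ 6 +
      ((2) * w ^ 0 + (1) * w ^ 2 + (1) * w ^ 3 + (2) * w ^ 4) * t ^ 7 +
      ((2) * w ^ 0 + (1) * w ^ 1 + (-1) * w ^ 2 + (3) * w ^ 4) * t ^ 8 +
      ((2) * w ^ 0 + (-1) * w ^ 1 + (1) * w ^ 2 + (2) * w ^ 4) * t ^ 9 +
      ((2) * w ^ 0 + (-1) * w ^ 1 + (1) * w ^ 3 + (1) * w ^ 4) * t ^ 10 +
      ((2) * w ^ 0 + (-1) * w ^ 1 + (1) * w ^ 3) * t ^ 11 +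
      ((1) * w ^ 0) * t ^ 12) * hw

lemma g10 {w t u : R} (hw : w ^ 2 + w + 1 = 0) (h : t * u = 1) :
    pw w t 0 0 0 1 2 2 1 * pw (w ^ 2) u 0 0 1 0 1 0 0 +
      pw w t 0 2 0 1 1 0 2 * pw (w ^ 2) u 0 2 1 2 0 1 1 +
      pw w t 0 1 0 0 0 1 0 * pw (w ^ 2) u 0 1 1 0 2 2 2 = 0 := by
  simp only [pw_rev h (w ^ 2)]
  unfold pw
  linear_combination u ^ 6 * (((1) * w ^ 0 + (-1) * w ^ 1 + (1) * w ^ 2) * t ^ 0 +
      ((2) * w ^ 0 + (-2) * w ^ 1 + (1) * w ^ 2 + (1) * w ^ 3) * t ^ 1 +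
      ((3) * w ^ 0 + (-3) * w ^ 1 + (2) * w ^ 2 + (1) * w ^ 3) * t ^ 2 +
      ((3) * w ^ 0 + (-2) * w ^ 1 + (2) * w ^ 2 + (1) * w ^ 3) * t ^ 3 +
      ((2) * w ^ 0 + (3) * w ^ 2 + (-1) * w ^ 3 + (1) * w ^ 4) * t ^ 4 +
      ((3) * w ^ 0 + (-2) * w ^ 1 + (4) * w ^ 2 + (1) * w ^ 3) * t ^ 5 +
      ((5) * w ^ 0 + (-2) * w ^ 1 + (2) * w ^ 2 + (1) * w ^ 3 + (1) * w ^ 4) * t ^ 6 +
      ((4) * w ^ 0 + (-2) * w ^ 1 + (2) * w ^ 2 + (2) * w ^ 3) * t ^ 7 +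
      ((3) * w ^ 0 + (-1) * w ^ 1 + (2) * w ^ 2 + (1) * w ^ 3) * t ^ 8 +
      ((2) * w ^ 0 + (1) * w ^ 1 + (1) * w ^ 4) * t ^ 9 +
      ((1) * w ^ 0 + (2) * w ^ 2) * t ^ 10 +
      ((1) * w ^ 0 + (1) * w ^ 1 + (-1) * w ^ 3 + (1) * w ^ 4) * t ^ 11 +
      ((1) * w ^ 0) * t ^ 12) * hw

lemma g11 {w t u : R} (hw : w ^ 2 + w + 1 = 0) (h : t * u = 1) :
    pw w t 0 0 0 1 2 2 1 * pw (w ^ 2) u 0 0 0 1 2 2 1 +
      pw w t 0 2 0 1 1 0 2 * pw (w ^ 2) u 0 2 0 1 1 0 2 +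
      pw w t 0 1 0 0 0 1 0 * pw (w ^ 2) u 0 1 0 0 0 1 0 = 21 := by
  simp only [pw_rev h (w ^ 2)]
  unfold pw
  linear_combination u ^ 6 * (((1) * w ^ 0 + (-1) * w ^ 1 + (1) * w ^ 2) * t ^ 0 +
      ((1) * w ^ 0 + (1) * w ^ 2 + (-1) * w ^ 3 + (1) * w ^ 4) * t ^ 1 +
      ((2) * w ^ 0 + (-2) * w ^ 1 + (3) * w ^ 2) * t ^ 2 +
      ((3) * w ^ 0 + (-2) * w ^ 1 + (2) * w ^ 2 + (1) * w ^ 3) * t ^ 3 +
      ((5) * w ^ 0 + (-3) * w ^ 1 + (1) * w ^ 2 + (2) * w ^ 3) * t ^ 4 +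
      ((4) * w ^ 0 + (-1) * w ^ 1 + (2) * w ^ 2 + (1) * w ^ 4) * t ^ 5 +
      ((-10) * w ^ 0 + (10) * w ^ 1 + (-4) * w ^ 3 + (4) * w ^ 4) * t ^ 6 +
      ((4) * w ^ 0 + (1) * w ^ 2 + (1) * w ^ 4) * t ^ 7 +
      ((5) * w ^ 0 + (-2) * w ^ 1 + (2) * w ^ 3) * t ^ 8 +
      ((3) * w ^ 0 + (1) * w ^ 3) * t ^ 9 +
      ((2) * w ^ 0 + (1) * w ^ 2) * t ^ 10 +
      ((1) * w ^ 0 + (1) * w ^ 1 + (-1) * w ^ 3 + (1) * w ^ 4) * t ^ 11 +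
      ((1) * w ^ 0) * t ^ 12) * hw + 21 * (1 + t * u + (t * u) ^ 2 + (t * u) ^ 3 + (t * u) ^ 4 + (t * u) ^ 5) * h

lemma g12 {w t u : R} (hw : w ^ 2 + w + 1 = 0) (h : t * u = 1) :
    pw w t 0 0 0 1 2 2 1 * pw (w ^ 2) u 0 0 2 1 0 1 2 +
      pw w t 0 2 0 1 1 0 2 * pw (w ^ 2) u 0 2 2 2 2 2 0 +
      pw w t 0 1 0 0 0 1 0 * pw (w ^ 2) u 0 1 2 2 1 0 1 = 0 := by
  simp only [pw_rev h (w ^ 2)]
  unfold pw
  linear_combination u ^ 6 * (((1) * w ^ 0 + (-1) * w ^ 1 + (1) * w ^ 2) * t ^ 0 +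
      ((1) * w ^ 0 + (-1) * w ^ 1 + (2) * w ^ 2) * t ^ 1 +
      ((2) * w ^ 0 + (-1) * w ^ 1 + (2) * w ^ 2 + (-1) * w ^ 3 + (1) * w ^ 4) * t ^ 2 +
      ((2) * w ^ 0 + (-1) * w ^ 1 + (2) * w ^ 2 + (1) * w ^ 4) * t ^ 3 +
      ((2) * w ^ 0 + (-1) * w ^ 1 + (2) * w ^ 2 + (2) * w ^ 4) * t ^ 4 +
      ((3) * w ^ 0 + (-2) * w ^ 1 + (2) * w ^ 2 + (1) * w ^ 3 + (2) * w ^ 4) * t ^ 5 +
      ((4) * w ^ 0 + (-3) * w ^ 1 + (3) * w ^ 2 + (2) * w ^ 3 + (1) * w ^ 4) * t ^ 6 +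
      ((3) * w ^ 0 + (-2) * w ^ 1 + (2) * w ^ 2 + (2) * w ^ 3 + (1) * w ^ 4) * t ^ 7 +
      ((3) * w ^ 0 + (-1) * w ^ 1 + (1) * w ^ 3 + (2) * w ^ 4) * t ^ 8 +
      ((1) * w ^ 0 + (1) * w ^ 1 + (2) * w ^ 4) * t ^ 9 +
      ((1) * w ^ 0 + (1) * w ^ 2 + (1) * w ^ 4) * t ^ 10 +
      ((1) * w ^ 0 + (1) * w ^ 1 + (-1) * w ^ 3 + (1) * w ^ 4) * t ^ 11 +
      ((1) * w ^ 0) * t ^ 12) * hw

lemma g20 {w t u : R} (hw : w ^ 2 + w + 1 = 0) (h : t * u = 1) :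
    pw w t 0 0 2 1 0 1 2 * pw (w ^ 2) u 0 0 1 0 1 0 0 +
      pw w t 0 2 2 2 2 2 0 * pw (w ^ 2) u 0 2 1 2 0 1 1 +
      pw w t 0 1 2 2 1 0 1 * pw (w ^ 2) u 0 1 1 0 2 2 2 = 0 := by
  simp only [pw_rev h (w ^ 2)]
  unfold pw
  linear_combination u ^ 6 * (((1) * w ^ 0 + (-1) * w ^ 1 + (1) * w ^ 2) * t ^ 0 +
      ((2) * w ^ 0 + (-2) * w ^ 1 + (1) * w ^ 2 + (1) * w ^ 3) * t ^ 1 +
      ((2) * w ^ 0 + (-2) * w ^ 1 + (2) * w ^ 2 + (1) * w ^ 4) * t ^ 2 +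
      ((2) * w ^ 0 + (-1) * w ^ 1 + (2) * w ^ 2 + (-1) * w ^ 3 + (2) * w ^ 4) * t ^ 3 +
      ((2) * w ^ 0 + (2) * w ^ 2 + (-2) * w ^ 3 + (3) * w ^ 4) * t ^ 4 +
      ((2) * w ^ 0 + (-1) * w ^ 1 + (4) * w ^ 2 + (-1) * w ^ 3 + (2) * w ^ 4) * t ^ 5 +
      ((4) * w ^ 0 + (-2) * w ^ 1 + (3) * w ^ 2 + (2) * w ^ 4) * t ^ 6 +
      ((2) * w ^ 0 + (3) * w ^ 2 + (-1) * w ^ 3 + (2) * w ^ 4) * t ^ 7 +
      ((2) * w ^ 0 + (2) * w ^ 2 + (-1) * w ^ 3 + (2) * w ^ 4) * t ^ 8 +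
      ((1) * w ^ 0 + (1) * w ^ 1 + (2) * w ^ 2 + (-1) * w ^ 3 + (1) * w ^ 4) * t ^ 9 +
      ((1) * w ^ 0 + (1) * w ^ 1 + (1) * w ^ 2 + (-1) * w ^ 3 + (1) * w ^ 4) * t ^ 10 +
      ((1) * w ^ 0 + (1) * w ^ 2) * t ^ 11 +
      ((1) * w ^ 0) * t ^ 12) * hw

lemma g21 {w t u : R} (hw : w ^ 2 + w + 1 = 0) (h : t * u = 1) :
    pw w t 0 0 2 1 0 1 2 * pw (w ^ 2) u 0 0 0 1 2 2 1 +
      pw w t 0 2 2 2 2 2 0 * pw (w ^ 2) u 0 2 0 1 1 0 2 +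
      pw w t 0 1 2 2 1 0 1 * pw (w ^ 2) u 0 1 0 0 0 1 0 = 0 := by
  simp only [pw_rev h (w ^ 2)]
  unfold pw
  linear_combination u ^ 6 * (((1) * w ^ 0 + (-1) * w ^ 1 + (1) * w ^ 2) * t ^ 0 +
      ((1) * w ^ 0 + (1) * w ^ 2 + (-1) * w ^ 3 + (1) * w ^ 4) * t ^ 1 +
      ((1) * w ^ 0 + (-1) * w ^ 1 + (3) * w ^ 2 + (-1) * w ^ 3 + (1) * w ^ 4) * t ^ 2 +
      ((1) * w ^ 0 + (3) * w ^ 2 + (-2) * w ^ 3 + (2) * w ^ 4) * t ^ 3 +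
      ((3) * w ^ 0 + (-1) * w ^ 1 + (2) * w ^ 2 + (-1) * w ^ 3 + (2) * w ^ 4) * t ^ 4 +
      ((3) * w ^ 0 + (-2) * w ^ 1 + (4) * w ^ 2 + (1) * w ^ 4) * t ^ 5 +
      ((4) * w ^ 0 + (-2) * w ^ 1 + (4) * w ^ 2 + (1) * w ^ 4) * t ^ 6 +
      ((3) * w ^ 0 + (2) * w ^ 2 + (-1) * w ^ 3 + (2) * w ^ 4) * t ^ 7 +
      ((2) * w ^ 0 + (1) * w ^ 1 + (2) * w ^ 2 + (-2) * w ^ 3 + (2) * w ^ 4) * t ^ 8 +
      ((2) * w ^ 0 + (1) * w ^ 1 + (1) * w ^ 2 + (-1) * w ^ 3 + (1) * w ^ 4) * t ^ 9 +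
      ((2) * w ^ 0 + (1) * w ^ 1 + (-1) * w ^ 3 + (1) * w ^ 4) * t ^ 10 +
      ((1) * w ^ 0 + (1) * w ^ 2) * t ^ 11 +
      ((1) * w ^ 0) * t ^ 12) * hw

lemma g22 {w t u : R} (hw : w ^ 2 + w + 1 = 0) (h : t * u = 1) :
    pw w t 0 0 2 1 0 1 2 * pw (w ^ 2) u 0 0 2 1 0 1 2 +
      pw w t 0 2 2 2 2 2 0 * pw (w ^ 2) u 0 2 2 2 2 2 0 +
      pw w t 0 1 2 2 1 0 1 * pw (w ^ 2) u 0 1 2 2 1 0 1 = 21 := by
  simp only [pw_rev h (w ^ 2)]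
  unfold pw
  linear_combination u ^ 6 * (((1) * w ^ 0 + (-1) * w ^ 1 + (1) * w ^ 2) * t ^ 0 +
      ((1) * w ^ 0 + (-1) * w ^ 1 + (2) * w ^ 2) * t ^ 1 +
      ((1) * w ^ 0 + (2) * w ^ 2 + (-2) * w ^ 3 + (2) * w ^ 4) * t ^ 2 +
      ((1) * w ^ 0 + (-1) * w ^ 1 + (3) * w ^ 2 + (-1) * w ^ 3 + (2) * w ^ 4) * t ^ 3 +
      ((4) * w ^ 2 + (-2) * w ^ 3 + (3) * w ^ 4) * t ^ 4 +
      ((1) * w ^ 0 + (1) * w ^ 1 + (2) * w ^ 2 + (-3) * w ^ 3 + (5) * w ^ 4) * t ^ 5 +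
      ((-14) * w ^ 0 + (14) * w ^ 1 + (-9) * w ^ 3 + (9) * w ^ 4) * t ^ 6 +
      ((1) * w ^ 0 + (2) * w ^ 1 + (1) * w ^ 2 + (-3) * w ^ 3 + (5) * w ^ 4) * t ^ 7 +
      ((1) * w ^ 1 + (3) * w ^ 2 + (-2) * w ^ 3 + (3) * w ^ 4) * t ^ 8 +
      ((1) * w ^ 0 + (1) * w ^ 2 + (2) * w ^ 4) * t ^ 9 +
      ((1) * w ^ 0 + (1) * w ^ 1 + (-1) * w ^ 3 + (2) * w ^ 4) * t ^ 10 +
      ((1) * w ^ 0 + (1) * w ^ 2) * t ^ 11 +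
      ((1) * w ^ 0) * t ^ 12) * hw + 21 * (1 + t * u + (t * u) ^ 2 + (t * u) ^ 3 + (t * u) ^ 4 + (t * u) ^ 5) * h

end Code

lemma mult21 : Mult 21 E21 := by
  intro R _ w t u x y hw h
  have h3 : t ^ 3 * u ^ 3 = 1 := by rw [← mul_pow, h, one_pow]
  have h2 : t ^ 2 * u ^ 2 = 1 := by rw [← mul_pow, h, one_pow]
  have hx : ∀ (w t : R) (x : ℕ → R),
      ∑ q ∈ range 21, w ^ E21 0 q * t ^ q * x (q % 3) =
        pw w (t ^ 3) 0 0 1 0 1 0 0 * (t ^ 0 * x 0) +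
        pw w (t ^ 3) 0 0 0 1 2 2 1 * (t ^ 1 * x 1) +
        pw w (t ^ 3) 0 0 2 1 0 1 2 * (t ^ 2 * x 2) ∧
      ∑ q ∈ range 21, w ^ E21 1 q * t ^ q * x (q % 3) =
        pw w (t ^ 3) 0 2 1 2 0 1 1 * (t ^ 0 * x 0) +
        pw w (t ^ 3) 0 2 0 1 1 0 2 * (t ^ 1 * x 1) +
        pw w (t ^ 3) 0 2 2 2 2 2 0 * (t ^ 2 * x 2) ∧
      ∑ q ∈ range 21, w ^ E21 2 q * t ^ q * x (q % 3) =
        pw w (t ^ 3) 0 1 1 0 2 2 2 * (t ^ 0 * x 0) +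
        pw w (t ^ 3) 0 1 0 0 0 1 0 * (t ^ 1 * x 1) +
        pw w (t ^ 3) 0 1 2 2 1 0 1 * (t ^ 2 * x 2) := by
    intro w t x
    simp only [sum_range_succ, sum_range_zero, E21, Matrix.cons_val_zero,
      Matrix.cons_val_one, Matrix.cons_val, List.getD_cons_succ, List.getD_cons_zero,
      Nat.reduceMod, pw]
    refine ⟨?_, ?_, ?_⟩ <;> ring
  rw [Fin.sum_univ_three, (hx w t x).1, (hx w t x).2.1, (hx w t x).2.2, (hx (w ^ 2) u y).1,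
    (hx (w ^ 2) u y).2.1, (hx (w ^ 2) u y).2.2, Nat.cast_ofNat]
  linear_combination (t ^ 0 * x 0 * (u ^ 0 * y 0)) * g00 hw h3 +
    (t ^ 0 * x 0 * (u ^ 1 * y 1)) * g01 hw h3 +
    (t ^ 0 * x 0 * (u ^ 2 * y 2)) * g02 hw h3 +
    (t ^ 1 * x 1 * (u ^ 0 * y 0)) * g10 hw h3 +
    (t ^ 1 * x 1 * (u ^ 1 * y 1)) * g11 hw h3 +
    (t ^ 1 * x 1 * (u ^ 2 * y 2)) * g12 hw h3 +
    (t ^ 2 * x 2 * (u ^ 0 * y 0)) * g20 hw h3 +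
    (t ^ 2 * x 2 * (u ^ 1 * y 1)) * g21 hw h3 +
    (t ^ 2 * x 2 * (u ^ 2 * y 2)) * g22 hw h3 +
    21 * x 1 * y 1 * h + 21 * x 2 * y 2 * h2

theorem main (s a b : ℕ) (hab : b ≤ a) (hs : HasTriad s) : HasTriad (3 ^ a * 7 ^ b * s) := by
  obtain ⟨d, rfl⟩ := Nat.exists_eq_add_of_le hab
  induction d with
  | zero =>
    induction b with
    | zero => simpa using hs
    | succ b ih =>
      have := mult21.triad (ih le_rfl)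
      rwa [show 21 * (3 ^ (b + 0) * 7 ^ b * s) = 3 ^ (b + 1 + 0) * 7 ^ (b + 1) * s by ring] at this
  | succ d ih =>
    have := mult3.triad (ih (Nat.le_add_right _ _))
    rwa [show 3 * (3 ^ (b + d) * 7 ^ b * s) = 3 ^ (b + (d + 1)) * 7 ^ b * s by ring] at this

end

end Pool.Agent.MP_fe418c_co
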